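import Mathlib

set_option autoImplicit false

/-!
# Majority 3-colourings of countable weighted graphs
-/

namespace Pool.Agent.Q271.MJ

open scoped ENNReal
open Finset

variable {V : Type*}

/-- Total weight of the edges at `v` whose other end has a colour different from that of `v`. -/
noncomputable def diffW (G : SimpleGraph V) (w : Sym2 V → ℕ) {C : Type*} (φ : V → C) (v : V) :
    ℝ≥0∞ :=
  open Classical in ∑' u, if G.Adj v u ∧ φ u ≠ φ v then (w s(v, u) : ℝ≥0∞) else 0

/-- Total weight of the edges at `v` whose other end has the same colour as `v`. -/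
noncomputable def sameW (G : SimpleGraph V) (w : Sym2 V → ℕ) {C : Type*} (φ : V → C) (v : V) :
    ℝ≥0∞ :=
  open Classical in ∑' u, if G.Adj v u ∧ φ u = φ v then (w s(v, u) : ℝ≥0∞) else 0

/-- The colouring `φ` is a majority colouring of the weighted graph `(G, w)`. -/
def IsMajority (G : SimpleGraph V) (w : Sym2 V → ℕ) {C : Type*} (φ : V → C) : Prop :=
  ∀ v, sameW G w φ v ≤ diffW G w φ v

/-! ### Finitely many vertices of finite degree -/

section fin

variable [DecidableEq V] (W : V → V → ℕ)

/-- weight of a pair if monochromatic -/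
def mono (φ : V → Fin 3) (x y : V) : ℕ := if φ x = φ y then W x y else 0

lemma mono_comm (hs : ∀ u v, W u v = W v u) (φ : V → Fin 3) (x y : V) :
    mono W φ x y = mono W φ y x := by
  unfold mono
  rw [hs x y]
  simp only [eq_comm]

lemma pot_split (hs : ∀ u v, W u v = W v u) (h0 : ∀ v, W v v = 0) (φ : V → Fin 3) (v : V)
    (T : Finset V) (hv : v ∉ T) :
    ∑ x ∈ insert v T, ∑ y ∈ insert v T, mono W φ x y =
      2 * ∑ y ∈ T, mono W φ v y + ∑ x ∈ T, ∑ y ∈ T, mono W φ x y := by
  rw [sum_insert hv, sum_insert hv]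
  have e1 : mono W φ v v = 0 := by simp [mono, h0]
  have e2 : ∑ x ∈ T, ∑ y ∈ insert v T, mono W φ x y =
      ∑ x ∈ T, mono W φ v x + ∑ x ∈ T, ∑ y ∈ T, mono W φ x y := by
    rw [← sum_add_distrib]
    refine sum_congr rfl fun x _ => ?_
    rw [sum_insert hv, mono_comm W hs φ x v]
  rw [e1, e2]
  ring

lemma exists_fin (hs : ∀ u v, W u v = W v u) (h0 : ∀ v, W v v = 0) (ψ : V → Fin 3)
    (A T : Finset V) (hAT : A ⊆ T) (hψ : ∀ v ∈ A, ψ v = 1 ∨ ψ v = 2) :
    ∃ φ : V → Fin 3, (∀ v, v ∉ A → φ v = ψ v) ∧ (∀ v ∈ A, φ v = 1 ∨ φ v = 2) ∧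
      ∀ v ∈ A, ∑ u ∈ T, (if φ u = φ v then W v u else 0) ≤
        ∑ u ∈ T, (if φ u ≠ φ v then W v u else 0) := by
  have hex : ∃ n, ∃ φ : V → Fin 3, ((∀ v, v ∉ A → φ v = ψ v) ∧ (∀ v ∈ A, φ v = 1 ∨ φ v = 2)) ∧
      ∑ x ∈ T, ∑ y ∈ T, mono W φ x y = n := ⟨_, ψ, ⟨fun _ _ => rfl, hψ⟩, rfl⟩
  classical
  obtain ⟨φ, ⟨h1, h2⟩, h3⟩ := Nat.find_spec hex
  refine ⟨φ, h1, h2, fun v hv => ?_⟩
  set c : Fin 3 := if φ v = 1 then 2 else 1 with hc
  have hcne : c ≠ φ v := by
    rcases h2 v hv with h | h
    · rw [hc, if_pos h, h]; decide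
    · rw [hc, if_neg (by rw [h]; decide), h]; decide
  have hc12 : c = 1 ∨ c = 2 := by
    rw [hc]
    split_ifs
    · exact Or.inr rfl
    · exact Or.inl rfl
  have hmin : ∑ x ∈ T, ∑ y ∈ T, mono W φ x y ≤
      ∑ x ∈ T, ∑ y ∈ T, mono W (Function.update φ v c) x y := by
    rw [h3]
    refine Nat.find_min' hex ⟨_, ⟨fun u hu => ?_, fun u hu => ?_⟩, rfl⟩
    · have : u ≠ v := by
        rintro rfl
        exact hu hv
      rw [Function.update_of_ne this]
      exact h1 u hu
    · by_cases huv : u = v
      · subst huv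
        rw [Function.update_self]
        exact hc12
      · rw [Function.update_of_ne huv]
        exact h2 u hu
  have hT : T = insert v (T.erase v) := (insert_erase (hAT hv)).symm
  have hvn : v ∉ T.erase v := by simp
  have e1 := pot_split W hs h0 φ v (T.erase v) hvn
  have e2 := pot_split W hs h0 (Function.update φ v c) v (T.erase v) hvn
  rw [← hT] at e1 e2
  have e3 : ∑ x ∈ T.erase v, ∑ y ∈ T.erase v, mono W (Function.update φ v c) x y =
      ∑ x ∈ T.erase v, ∑ y ∈ T.erase v, mono W φ x y := by
    refine sum_congr rfl fun x hx => sum_congr rfl fun y hy => ?_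
    unfold mono
    rw [Function.update_of_ne (ne_of_mem_erase hx), Function.update_of_ne (ne_of_mem_erase hy)]
  rw [e1, e2, e3] at hmin
  have e4 : ∑ y ∈ T.erase v, mono W φ v y ≤
      ∑ y ∈ T.erase v, mono W (Function.update φ v c) v y := by omega
  have e5 : ∑ u ∈ T, (if φ u = φ v then W v u else 0) = ∑ y ∈ T.erase v, mono W φ v y := by
    rw [← add_sum_erase T _ (hAT hv)]
    simp only [if_true, h0, zero_add]
    refine sum_congr rfl fun x _ => ?_
    unfold mono
    simp only [eq_comm]
  have e6 : ∑ y ∈ T.erase v, mono W (Function.update φ v c) v y ≤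
      ∑ u ∈ T, (if φ u ≠ φ v then W v u else 0) := by
    refine le_trans ?_ (sum_le_sum_of_subset (erase_subset v T))
    refine sum_le_sum fun x hx => ?_
    unfold mono
    rw [Function.update_self, Function.update_of_ne (ne_of_mem_erase hx)]
    by_cases h : c = φ x
    · have : φ x ≠ φ v := by rw [← h]; exact hcne
      rw [if_pos h, if_pos this]
    · rw [if_neg h]
      exact Nat.zero_le _
  rw [e5]
  exact e4.trans e6

end fin

/-! ### Splitting countably many infinite sets -/

lemma exists_inj {V : Type*} [DecidableEq V] (Y : ℕ → Set V) (hY : ∀ k, (Y k).Infinite) :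
    ∃ g : ℕ → V, Function.Injective g ∧ ∀ k, g k ∈ Y k := by
  have hpick : ∀ (k : ℕ) (s : Finset V), ∃ y, y ∈ Y k ∧ y ∉ s := fun k s =>
    (hY k).exists_notMem_finset s
  choose pick hp1 hp2 using hpick
  let F : ℕ → Finset V := fun k => Nat.rec ∅ (fun k s => insert (pick k s) s) k
  have hF : ∀ k, F (k + 1) = insert (pick k (F k)) (F k) := fun k => rfl
  have hmono : ∀ j k, j ≤ k → F j ⊆ F k := by
    intro j k hjk
    induction hjk with
    | refl => exact Finset.Subset.refl _
    | step _ ih => exact ih.trans (by rw [hF]; exact subset_insert _ _)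
  have hlt : ∀ j k, j < k → pick j (F j) ≠ pick k (F k) := by
    intro j k hjk he
    have h1 : pick j (F j) ∈ F (j + 1) := by rw [hF]; exact mem_insert_self _ _
    have h2 := hmono (j + 1) k hjk h1
    rw [he] at h2
    exact hp2 k (F k) h2
  refine ⟨fun k => pick k (F k), ?_, fun k => hp1 k _⟩
  intro j k hjk
  rcases lt_trichotomy j k with h | h | h
  · exact absurd hjk (hlt j k h)
  · exact h
  · exact absurd hjk.symm (hlt k j h)

/-- Countably many infinite sets can be split simultaneously. -/
lemma exists_split {V : Type*} {ι : Type*} [Countable ι] (X : ι → Set V)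
    (hX : ∀ i, (X i).Infinite) : ∃ B : Set V, ∀ i, (X i ∩ B).Infinite ∧ (X i \ B).Infinite := by
  classical
  cases isEmpty_or_nonempty ι with
  | inl h => exact ⟨∅, fun i => (h.false i).elim⟩
  | inr h =>
    obtain ⟨e, he⟩ := exists_surjective_nat ι
    -- tasks are pairs `(n, (m, b))`
    let d : ℕ → ℕ × ℕ × ℕ := fun k => (k.unpair.1, k.unpair.2.unpair.1, k.unpair.2.unpair.2)
    obtain ⟨g, hg, hgY⟩ := exists_inj (fun k => X (e (d k).1)) (fun k => hX _)
    have hd : ∀ n m b, d (Nat.pair n (Nat.pair m b)) = (n, m, b) := by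
      intro n m b
      simp [d]
    refine ⟨{v | ∃ n m, v = g (Nat.pair n (Nat.pair m 0))}, fun i => ?_⟩
    obtain ⟨n, rfl⟩ := he i
    constructor
    · refine Set.infinite_of_injective_forall_mem
        (f := fun m : ℕ => g (Nat.pair n (Nat.pair m 0))) ?_ ?_
      · intro m m' hm
        have h1 := hg hm
        have h2 := congrArg d h1
        rw [hd, hd] at h2
        simpa using h2
      · intro m
        refine ⟨?_, n, m, rfl⟩
        have := hgY (Nat.pair n (Nat.pair m 0))
        simp only [hd] at this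
        exact this
    · refine Set.infinite_of_injective_forall_mem
        (f := fun m : ℕ => g (Nat.pair n (Nat.pair m 1))) ?_ ?_
      · intro m m' hm
        have h1 := hg hm
        have h2 := congrArg d h1
        rw [hd, hd] at h2
        simpa using h2
      · intro m
        refine ⟨?_, ?_⟩
        · have := hgY (Nat.pair n (Nat.pair m 1))
          simp only [hd] at this
          exact this
        · rintro ⟨n', m', hm⟩
          have h1 := hg hm
          have h2 := congrArg d h1
          rw [hd, hd] at h2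
          simp at h2

/-! ### The infinite-degree vertices -/

/-- Two disjoint sets of infinite-degree vertices covering all of them, such that each vertex of
the first set has infinitely many neighbours in `Fi` or in the second set, and each vertex of the
second set has infinitely many neighbours in the first set. -/
lemma exists_two {V : Type*} [Countable V] (N : V → Set V) (I : Set V)
    (hI : ∀ v ∈ I, (N v).Infinite) :
    ∃ A B : Set V, A ∪ B = I ∧ Disjoint A B ∧
      (∀ v ∈ A, (N v \ I).Infinite ∨ (N v ∩ B).Infinite) ∧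
      ∀ v ∈ B, (N v ∩ A).Infinite := by
  classical
  let S : Set (Set V × Set V) := {p | p.1 ⊆ I ∧ p.2 ⊆ I ∧ Disjoint p.1 p.2 ∧
    (∀ v ∈ p.1, (N v \ I).Infinite ∨ (N v ∩ p.2).Infinite) ∧ ∀ v ∈ p.2, (N v ∩ p.1).Infinite}
  obtain ⟨m, hm⟩ : ∃ m, Maximal (· ∈ S) m := by
    apply zorn_le₀
    intro c hcS hc
    refine ⟨(⋃ p ∈ c, p.1, ⋃ p ∈ c, p.2), ?_, ?_⟩
    · refine ⟨?_, ?_, ?_, ?_, ?_⟩
      · exact Set.iUnion₂_subset fun p hp => (hcS hp).1
      · exact Set.iUnion₂_subset fun p hp => (hcS hp).2.1
      · rw [Set.disjoint_left]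
        intro v hv1 hv2
        simp only [Set.mem_iUnion, exists_prop] at hv1 hv2
        obtain ⟨p, hp, hvp⟩ := hv1
        obtain ⟨q, hq, hvq⟩ := hv2
        rcases hc.total hp hq with h | h
        · exact Set.disjoint_left.mp (hcS hq).2.2.1 (h.1 hvp) hvq
        · exact Set.disjoint_left.mp (hcS hp).2.2.1 hvp (h.2 hvq)
      · intro v hv
        simp only [Set.mem_iUnion, exists_prop] at hv
        obtain ⟨p, hp, hvp⟩ := hv
        rcases (hcS hp).2.2.2.1 v hvp with h | h
        · exact Or.inl h
        · right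
          refine h.mono (Set.inter_subset_inter_right _ ?_)
          exact Set.subset_biUnion_of_mem (u := fun p : Set V × Set V => p.2) hp
      · intro v hv
        simp only [Set.mem_iUnion, exists_prop] at hv
        obtain ⟨p, hp, hvp⟩ := hv
        refine ((hcS hp).2.2.2.2 v hvp).mono (Set.inter_subset_inter_right _ ?_)
        exact Set.subset_biUnion_of_mem (u := fun p : Set V × Set V => p.1) hp
    · intro z hz
      exact ⟨Set.subset_biUnion_of_mem (u := fun p : Set V × Set V => p.1) hz,
        Set.subset_biUnion_of_mem (u := fun p : Set V × Set V => p.2) hz⟩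
  obtain ⟨A, B⟩ := m
  obtain ⟨⟨hA, hB, hdis, h1, h2⟩, hmax⟩ := hm
  simp only at hA hB hdis h1 h2
  -- vertices outside `A ∪ B` have infinitely many neighbours outside `A ∪ B`
  have hcore : ∀ v ∈ I \ (A ∪ B), (N v ∩ (I \ (A ∪ B))).Infinite := by
    rintro v ⟨hvI, hvAB⟩
    have hnF : ¬ (N v \ I).Infinite := by
      intro hinf
      have := hmax (y := (insert v A, B)) ⟨Set.insert_subset hvI hA, hB, ?_, ?_, ?_⟩
        ⟨Set.subset_insert _ _, le_rfl⟩
      · exact hvAB (Or.inl (this.1 (Set.mem_insert _ _)))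
      · rw [Set.disjoint_insert_left]
        exact ⟨fun h => hvAB (Or.inr h), hdis⟩
      · rintro u (rfl | hu)
        · exact Or.inl hinf
        · exact h1 u hu
      · intro u hu
        exact (h2 u hu).mono (Set.inter_subset_inter_right _ (Set.subset_insert _ _))
    have hnA : ¬ (N v ∩ A).Infinite := by
      intro hinf
      have := hmax (y := (A, insert v B)) ⟨hA, Set.insert_subset hvI hB, ?_, ?_, ?_⟩
        ⟨le_rfl, Set.subset_insert _ _⟩
      · exact hvAB (Or.inr (this.2 (Set.mem_insert _ _)))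
      · rw [Set.disjoint_insert_right]
        exact ⟨fun h => hvAB (Or.inl h), hdis⟩
      · intro u hu
        rcases h1 u hu with h | h
        · exact Or.inl h
        · exact Or.inr (h.mono (Set.inter_subset_inter_right _ (Set.subset_insert _ _)))
      · rintro u (rfl | hu)
        · exact hinf
        · exact h2 u hu
    have hnB : ¬ (N v ∩ B).Infinite := by
      intro hinf
      have := hmax (y := (insert v A, B)) ⟨Set.insert_subset hvI hA, hB, ?_, ?_, ?_⟩
        ⟨Set.subset_insert _ _, le_rfl⟩
      · exact hvAB (Or.inl (this.1 (Set.mem_insert _ _)))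
      · rw [Set.disjoint_insert_left]
        exact ⟨fun h => hvAB (Or.inr h), hdis⟩
      · rintro u (rfl | hu)
        · exact Or.inr hinf
        · exact h1 u hu
      · intro u hu
        exact (h2 u hu).mono (Set.inter_subset_inter_right _ (Set.subset_insert _ _))
    by_contra hfin
    rw [Set.not_infinite] at hnF hnA hnB hfin
    apply hI v hvI
    refine (((hnF.union hnA).union hnB).union hfin).subset ?_
    intro u hu
    by_cases huI : u ∈ I
    · by_cases huA : u ∈ A
      · exact Or.inl (Or.inl (Or.inr ⟨hu, huA⟩))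
      · by_cases huB : u ∈ B
        · exact Or.inl (Or.inr ⟨hu, huB⟩)
        · exact Or.inr ⟨hu, huI, fun h => h.elim huA huB⟩
    · exact Or.inl (Or.inl (Or.inl ⟨hu, huI⟩))
  set K := I \ (A ∪ B) with hK
  obtain ⟨D, hD⟩ := exists_split (fun v : K => N v.1 ∩ K) (fun v => hcore v.1 v.2)
  refine ⟨A ∪ (K ∩ D), B ∪ (K \ D), ?_, ?_, ?_, ?_⟩
  · ext v
    simp only [Set.mem_union, Set.mem_inter_iff, Set.mem_diff]
    constructor
    · rintro ((h | h) | (h | h))
      · exact hA h
      · exact h.1.1
      · exact hB h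
      · exact h.1.1
    · intro hv
      by_cases h1 : v ∈ A
      · exact Or.inl (Or.inl h1)
      · by_cases h2 : v ∈ B
        · exact Or.inr (Or.inl h2)
        · have h3 : v ∈ K := ⟨hv, fun h => h.elim h1 h2⟩
          by_cases h4 : v ∈ D
          · exact Or.inl (Or.inr ⟨h3, h4⟩)
          · exact Or.inr (Or.inr ⟨h3, h4⟩)
  · rw [Set.disjoint_left]
    rintro v (hv | hv) (hv' | hv')
    · exact Set.disjoint_left.mp hdis hv hv'
    · exact hv'.1.2 (Or.inl hv)
    · exact hv.1.2 (Or.inr hv')
    · exact hv'.2 hv.2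
  · rintro v (hv | hv)
    · rcases h1 v hv with h | h
      · exact Or.inl h
      · exact Or.inr (h.mono (Set.inter_subset_inter_right _ Set.subset_union_left))
    · right
      have := (hD ⟨v, hv.1⟩).2
      refine this.mono ?_
      rintro u ⟨⟨hu1, hu2⟩, hu3⟩
      exact ⟨hu1, Or.inr ⟨hu2, hu3⟩⟩
  · rintro v (hv | hv)
    · exact (h2 v hv).mono (Set.inter_subset_inter_right _ Set.subset_union_left)
    · have := (hD ⟨v, hv.1⟩).1
      refine this.mono ?_
      rintro u ⟨⟨hu1, hu2⟩, hu3⟩
      exact ⟨hu1, Or.inr ⟨hu2, hu3⟩⟩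

/-! ### The theorem -/

lemma tsum_top {V : Type*} {f : V → ℝ≥0∞} {S : Set V} (hS : S.Infinite) (h : ∀ u ∈ S, 1 ≤ f u) :
    ∑' u, f u = ∞ := by
  by_contra hne
  have := ENNReal.finite_const_le_of_tsum_ne_top hne one_ne_zero
  exact hS (this.subset fun u hu => h u hu)

theorem main {V : Type*} [Countable V] (G : SimpleGraph V) (w : Sym2 V → ℕ) :
    ∃ φ : V → Fin 3, IsMajority G w φ := by
  classical
  let W : V → V → ℕ := fun v u => if G.Adj v u then w s(v, u) else 0
  have hs : ∀ u v, W u v = W v u := by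
    intro u v
    simp only [W, G.adj_comm u v, Sym2.eq_swap]
  have h0 : ∀ v, W v v = 0 := fun v => by simp [W]
  have hdiff : ∀ (φ : V → Fin 3) v, diffW G w φ v =
      ∑' u, ((if φ u ≠ φ v then W v u else 0 : ℕ) : ℝ≥0∞) := by
    intro φ v
    unfold diffW
    refine tsum_congr fun u => ?_
    by_cases h1 : G.Adj v u <;> by_cases h2 : φ u = φ v <;> simp [W, h1, h2]
  have hsame : ∀ (φ : V → Fin 3) v, sameW G w φ v =
      ∑' u, ((if φ u = φ v then W v u else 0 : ℕ) : ℝ≥0∞) := by
    intro φ v
    unfold sameW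
    refine tsum_congr fun u => ?_
    by_cases h1 : G.Adj v u <;> by_cases h2 : φ u = φ v <;> simp [W, h1, h2]
  let N : V → Set V := fun v => {u | W v u ≠ 0}
  let I : Set V := {v | (N v).Infinite}
  obtain ⟨A, B, hAB, hdis, hA, hB⟩ := exists_two N I (fun v hv => hv)
  -- base colouring
  let ψ : V → Fin 3 := fun v => if v ∈ A then 0 else 1
  have hfinV : ∀ v, v ∉ I → (N v).Finite := fun v hv => Set.not_infinite.mp hv
  have hψ1 : ∀ v, v ∉ I → ψ v = 1 := by
    intro v hv
    have : v ∉ A := fun h => hv (hAB ▸ Or.inl h)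
    simp [ψ, this]
  have hfinite : ∀ E : Finset V, ∃ φ : V → Fin 3, (∀ v ∈ I, φ v = ψ v) ∧
      (∀ v, v ∉ I → φ v = 1 ∨ φ v = 2) ∧ ∀ v ∈ E, v ∉ I →
        ∀ T : Finset V, (∀ u, W v u ≠ 0 → u ∈ T) →
        ∑ u ∈ T, (if φ u = φ v then W v u else 0) ≤
          ∑ u ∈ T, (if φ u ≠ φ v then W v u else 0) := by
    intro E
    let A' : Finset V := E.filter (fun v => v ∉ I)
    let T0 : Finset V := A' ∪ A'.biUnion (fun v => if h : (N v).Finite then h.toFinset else ∅)
    obtain ⟨φ, g1, g2, g3⟩ := exists_fin W hs h0 ψ A' T0 subset_union_left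
      (fun v hv => Or.inl (hψ1 v (mem_filter.mp hv).2))
    refine ⟨φ, ?_, ?_, ?_⟩
    · intro v hv
      exact g1 v (fun h => (mem_filter.mp h).2 hv)
    · intro v hv
      by_cases hvA : v ∈ A'
      · exact g2 v hvA
      · left
        rw [g1 v hvA]
        exact hψ1 v hv
    · intro v hvE hv T hT
      have hvA : v ∈ A' := mem_filter.mpr ⟨hvE, hv⟩
      have h := g3 v hvA
      have hT0 : ∀ u, W v u ≠ 0 → u ∈ T0 := by
        intro u hu
        apply mem_union_right
        rw [mem_biUnion]
        refine ⟨v, hvA, ?_⟩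
        rw [dif_pos (hfinV v hv)]
        simpa [N] using hu
      -- both sums only depend on the support
      have key : ∀ (P : V → Prop) [DecidablePred P], ∑ u ∈ T, (if P u then W v u else 0) =
          ∑ u ∈ T0, (if P u then W v u else 0) := by
        intro P _
        have e1 : ∑ u ∈ T, (if P u then W v u else 0) =
            ∑ u ∈ T ∪ T0, (if P u then W v u else 0) := by
          refine sum_subset subset_union_left fun u _ hu => ?_
          have : W v u = 0 := by
            by_contra hne
            exact hu (hT u hne)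
          simp [this]
        have e2 : ∑ u ∈ T0, (if P u then W v u else 0) =
            ∑ u ∈ T ∪ T0, (if P u then W v u else 0) := by
          refine sum_subset subset_union_right fun u _ hu => ?_
          have : W v u = 0 := by
            by_contra hne
            exact hu (hT0 u hne)
          simp [this]
        rw [e1, e2]
      rw [key (fun u => φ u = φ v), key (fun u => φ u ≠ φ v)]
      exact h
  choose Φ p1 p2 p3 using hfinite
  -- an ultrafilter limit
  let U : Ultrafilter (Finset V) := Ultrafilter.of Filter.atTop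
  have hU : (U : Filter (Finset V)) ≤ Filter.atTop := Ultrafilter.of_le _
  have hlim : ∀ v, ∃ a : Fin 3, ∀ᶠ E in (U : Filter (Finset V)), Φ E v = a := by
    intro v
    obtain ⟨a, ha⟩ := (U.map (fun E => Φ E v)).eq_pure_of_finite
    refine ⟨a, ?_⟩
    have : ({a} : Set (Fin 3)) ∈ U.map (fun E => Φ E v) := by
      rw [ha]
      exact Ultrafilter.mem_pure.mpr rfl
    exact this
  choose φ hφ using hlim
  have hφI : ∀ v ∈ I, φ v = ψ v := by
    intro v hv
    obtain ⟨E, hE⟩ := (hφ v).exists
    rw [← hE]
    exact p1 E v hv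
  have hφF : ∀ v, v ∉ I → φ v = 1 ∨ φ v = 2 := by
    intro v hv
    obtain ⟨E, hE⟩ := (hφ v).exists
    rw [← hE]
    exact p2 E v hv
  refine ⟨φ, fun v => ?_⟩
  by_cases hv : v ∈ I
  · -- infinite degree
    have htop : ∀ S : Set V, S.Infinite → (∀ u ∈ S, W v u ≠ 0 ∧ φ u ≠ φ v) →
        sameW G w φ v ≤ diffW G w φ v := by
      intro S hS h
      rw [hdiff, tsum_top hS]
      · exact le_top
      · intro u hu
        rw [if_pos (h u hu).2]
        have : 1 ≤ W v u := Nat.one_le_iff_ne_zero.mpr (h u hu).1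
        exact_mod_cast this
    have hvAB : v ∈ A ∪ B := by rw [hAB]; exact hv
    rcases hvAB with hvA | hvB
    · have hφv : φ v = 0 := by
        rw [hφI v hv]
        simp [ψ, hvA]
      rcases hA v hvA with h | h
      · refine htop _ h ?_
        rintro u ⟨hu1, hu2⟩
        refine ⟨hu1, ?_⟩
        rw [hφv]
        rcases hφF u hu2 with h | h <;> rw [h] <;> decide
      · refine htop _ h ?_
        rintro u ⟨hu1, hu2⟩
        refine ⟨hu1, ?_⟩
        have huI : u ∈ I := hAB ▸ Or.inr hu2
        have huA : u ∉ A := fun h => Set.disjoint_left.mp hdis h hu2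
        rw [hφv, hφI u huI]
        simp [ψ, huA]
    · have hvA : v ∉ A := fun h => Set.disjoint_left.mp hdis h hvB
      have hφv : φ v = 1 := by
        rw [hφI v hv]
        simp [ψ, hvA]
      refine htop _ (hB v hvB) ?_
      rintro u ⟨hu1, hu2⟩
      refine ⟨hu1, ?_⟩
      have huI : u ∈ I := hAB ▸ Or.inl hu2
      rw [hφv, hφI u huI]
      simp [ψ, hu2]
  · -- finite degree
    have hfin := hfinV v hv
    let T : Finset V := insert v hfin.toFinset
    have hT : ∀ u, W v u ≠ 0 → u ∈ T := by
      intro u hu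
      apply mem_insert_of_mem
      simpa [N] using hu
    have hev : ∀ᶠ E in (U : Filter (Finset V)), ∀ u ∈ T, Φ E u = φ u := by
      rw [Filter.eventually_all_finset]
      intro u _
      exact hφ u
    have hev2 : ∀ᶠ E in (U : Filter (Finset V)), v ∈ E := by
      apply hU
      filter_upwards [Filter.eventually_ge_atTop ({v} : Finset V)] with E hE
      exact hE (mem_singleton_self v)
    obtain ⟨E, hE1, hE2⟩ := (hev.and hev2).exists
    have h := p3 E v hE2 hv T hT
    have hvT : v ∈ T := mem_insert_self _ _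
    have e1 : ∑ u ∈ T, (if Φ E u = Φ E v then W v u else 0) =
        ∑ u ∈ T, (if φ u = φ v then W v u else 0) := by
      refine sum_congr rfl fun u hu => ?_
      rw [hE1 u hu, hE1 v hvT]
    have e2 : ∑ u ∈ T, (if Φ E u ≠ Φ E v then W v u else 0) =
        ∑ u ∈ T, (if φ u ≠ φ v then W v u else 0) := by
      refine sum_congr rfl fun u hu => ?_
      rw [hE1 u hu, hE1 v hvT]
    rw [e1, e2] at h
    rw [hdiff, hsame, tsum_eq_sum (s := T), tsum_eq_sum (s := T)]
    · exact_mod_cast h
    · intro u hu
      have : W v u = 0 := by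
        by_contra hne
        exact hu (hT u hne)
      simp [this]
    · intro u hu
      have : W v u = 0 := by
        by_contra hne
        exact hu (hT u hne)
      simp [this]

end Pool.Agent.Q271.MJ
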